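import Pool.Agent.H8Z.BTE.Iface

set_option autoImplicit false
set_option linter.unusedSectionVars false
set_option linter.unusedSimpArgs false
set_option linter.unusedVariables false

/-! # Extraction of the basis, part A: the graph of components -/

namespace Pool.Agent.H473Z.Extr

open Pool.Agent.H8Z.BTE

variable {α E V : Type} [DecidableEq α]

/-- steps in the graph of components using only the bands in `T` -/
def GS (C : Cfg α E V) (T : Set E) (c c' : V) (x : E × Bool) : Prop :=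
  x.1 ∈ T ∧ c = C.cp x.1 (!x.2) ∧ c' = C.cp x.1 x.2

def Vx0 (C : Cfg α E V) : Set V := {c | ∃ l, Pth (GS C C.R) C.c0 c l}

def S0 (C : Cfg α E V) : Set E := {e | e ∈ C.R ∧ C.cp e false ∈ Vx0 C}

variable {C : Cfg α E V}

lemma GS_mem {T : Set E} {a b : V} {l : List (E × Bool)} (h : Pth (GS C T) a b l) :
    ∀ x ∈ l, x.1 ∈ T := by
  induction h with
  | nil => simp
  | cons _ s ih =>
    intro y hy
    rcases List.mem_cons.1 hy with rfl | hy
    · exact s.1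
    · exact ih y hy

lemma ev_val {Q : Type} [Group Q] (φ : FreeGroup α →* Q) (t : V → Q) {T : Set E} {a b : V}
    {l : List (E × Bool)} (h : Pth (GS C T) a b l) :
    ev (C.val φ t) l = t b * φ (ev C.w l) * (t a)⁻¹ := by
  induction h with
  | nil => simp
  | @cons b c x l _ s ih =>
    obtain ⟨e, s'⟩ := x
    obtain ⟨h1, h2, h3⟩ := s
    simp only at h2 h3
    rw [ev_cons, ev_cons, ih, Cfg.lv_val, map_mul, ← h2, ← h3]
    group

lemma step_pth {a b : V × ℤ} {l : List (E × Bool)} (h : Pth C.Step a b l) :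
    Pth (GS C C.R) a.1 b.1 l := by
  induction h with
  | nil => exact Pth.nil _
  | cons _ s ih =>
    obtain ⟨h1, h2, h3, k, h4, h5, h6, h7⟩ := s
    exact Pth.cons ih ⟨h1, by rw [h6]; rfl, by rw [h7]; rfl⟩

lemma c0_mem : C.c0 ∈ Vx0 C := ⟨[], Pth.nil _⟩

lemma Vx0_step {a b : V} {x : E × Bool} (h : GS C C.R a b x) (ha : a ∈ Vx0 C) : b ∈ Vx0 C := by
  obtain ⟨l, hl⟩ := ha
  exact ⟨x :: l, Pth.cons hl h⟩

lemma Vx0_flip {e : E} (he : e ∈ C.R) {s : Bool} (h : C.cp e (!s) ∈ Vx0 C) : C.cp e s ∈ Vx0 C :=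
  Vx0_step (x := (e, s)) ⟨he, rfl, rfl⟩ h

lemma S0_end {e : E} (he : e ∈ S0 C) (s : Bool) : C.cp e s ∈ Vx0 C := by
  cases s
  · exact he.2
  · exact Vx0_flip he.1 he.2

lemma mem_S0 {e : E} (he : e ∈ C.R) {s : Bool} (h : C.cp e s ∈ Vx0 C) : e ∈ S0 C := by
  cases s
  · exact ⟨he, h⟩
  · exact ⟨he, Vx0_flip he h⟩

lemma pth_in {a b : V} {l : List (E × Bool)} (h : Pth (GS C C.R) a b l) (ha : a ∈ Vx0 C) :
    Pth (GS C (S0 C)) a b l ∧ b ∈ Vx0 C := by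
  induction h with
  | nil => exact ⟨Pth.nil _, ha⟩
  | cons _ s ih =>
    have hc := Vx0_step s ih.2
    refine ⟨Pth.cons ih.1 ⟨mem_S0 s.1 (s.2.2 ▸ hc), s.2⟩, hc⟩

lemma pth_out {a b : V} {l : List (E × Bool)} (h : Pth (GS C C.R) a b l) (ha : a ∉ Vx0 C) :
    (∀ x ∈ l, x.1 ∉ S0 C) ∧ b ∉ Vx0 C := by
  induction h with
  | nil => exact ⟨by simp, ha⟩
  | @cons b c x l _ s ih =>
    have hx : x.1 ∉ S0 C := fun hx => ih.2 (s.2.1 ▸ S0_end hx _)
    refine ⟨fun y hy => ?_, fun hc => hx (mem_S0 s.1 (s.2.2 ▸ hc))⟩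
    rcases List.mem_cons.1 hy with rfl | hy
    · exact hx
    · exact ih.1 y hy

lemma connected (hg : C.Gen) (c : V) : ∃ l, Pth (GS C Set.univ) C.c0 c l := by
  classical
  let Rch : V → Prop := fun c => ∃ l, Pth (GS C Set.univ) C.c0 c l
  let t : V → Multiplicative ℤ := fun c => if Rch c then 1 else Multiplicative.ofAdd 1
  have hR : ∀ e s, Rch (C.cp e (!s)) → Rch (C.cp e s) := by
    rintro e s ⟨l, hl⟩
    exact ⟨(e, s) :: l, Pth.cons hl ⟨trivial, rfl, rfl⟩⟩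
  have h := (hg (Multiplicative ℤ) ⊥ 1 t (fun e => ?_) ?_).2 c
  · by_contra hc
    have : t c = Multiplicative.ofAdd 1 := if_neg hc
    rw [this, Subgroup.mem_bot] at h
    exact absurd h (by decide)
  · rw [Subgroup.mem_bot]
    have : t (C.cp e true) = t (C.cp e false) := by
      by_cases h : Rch (C.cp e false)
      · have h' : Rch (C.cp e true) := hR e true h
        simp only [t, if_pos h, if_pos h']
      · have h' : ¬ Rch (C.cp e true) := fun h' => h (hR e false h')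
        simp only [t, if_neg h, if_neg h']
    simp [Cfg.val, this]
  · have : t C.c0 = 1 := if_pos ⟨[], Pth.nil _⟩
    rw [this]
    exact Subgroup.one_mem _

lemma exists_rho (hg : C.Gen) (c : V) : ∃ r ρ, r ∈ Vx0 C ∧ Pth (GS C (S0 C)ᶜ) r c ρ ∧
    (c ∈ Vx0 C → r = c ∧ ρ = []) := by
  by_cases hc : c ∈ Vx0 C
  · exact ⟨c, [], hc, Pth.nil _, fun _ => ⟨rfl, rfl⟩⟩
  suffices h : ∃ r ρ, r ∈ Vx0 C ∧ Pth (GS C (S0 C)ᶜ) r c ρ by
    obtain ⟨r, ρ, h1, h2⟩ := h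
    exact ⟨r, ρ, h1, h2, fun h => absurd h hc⟩
  clear hc
  obtain ⟨l, hl⟩ := connected hg c
  induction hl with
  | nil => exact ⟨_, [], c0_mem, Pth.nil _⟩
  | @cons b c x l _ s ih =>
    by_cases hx : x.1 ∈ S0 C
    · exact ⟨c, [], s.2.2 ▸ S0_end hx _, Pth.nil _⟩
    · obtain ⟨r, ρ, h1, h2⟩ := ih
      exact ⟨r, x :: ρ, h1, Pth.cons h2 ⟨hx, s.2⟩⟩

lemma exists_pi [Finite E] {B : ℕ} (hB : C.R.ncard ≤ B) (c : V) : ∃ π : List (E × Bool),
    (c ∈ Vx0 C → Pth (GS C (S0 C)) C.c0 c π) ∧ π.length ≤ 2 * B ∧ (c = C.c0 → π = []) := by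
  by_cases h0 : c = C.c0
  · exact ⟨[], fun _ => h0 ▸ Pth.nil _, by simp, fun _ => rfl⟩
  by_cases hc : c ∈ Vx0 C
  swap
  · exact ⟨[], fun h => absurd h hc, by simp, fun _ => rfl⟩
  obtain ⟨l, hl⟩ := hc
  let M : Set V := (fun e => C.cp e false) '' C.R ∪ (fun e => C.cp e true) '' C.R
  have hM : M.Finite := ((Set.toFinite _).image _).union ((Set.toFinite _).image _)
  have hc : M.ncard ≤ 2 * B := by
    have h1 := Set.ncard_union_le ((fun e => C.cp e false) '' C.R) ((fun e => C.cp e true) '' C.R)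
    have h2 := Set.ncard_image_le (f := fun e => C.cp e false) (Set.toFinite C.R)
    have h3 := Set.ncard_image_le (f := fun e => C.cp e true) (Set.toFinite C.R)
    simp only [M]
    omega
  obtain ⟨m, h1, h2, -⟩ := Pth.short (Q := FreeGroup α) hM (St := GS C C.R) (by
    rintro a b ⟨e, s⟩ ⟨h1, h2, h3⟩
    cases s
    · exact Or.inl ⟨e, h1, h3.symm⟩
    · exact Or.inr ⟨e, h1, h3.symm⟩) hl
  exact ⟨m, fun _ => (pth_in h1 c0_mem).1, h2.trans hc, fun h => absurd h h0⟩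

/-- the key lemma -/
lemma key (hx : C.Ex) (σ : V → List (E × Bool)) (hσ : ∀ c, Pth (GS C Set.univ) C.c0 c (σ c))
    {Q : Type} [Group Q] (f : E → Q) (hf : C.Kills f) (h1 : ∀ c, ev f (σ c) = 1) :
    ∃ Φ : FreeGroup α →* Q,
      ∀ e, Φ (C.val (MonoidHom.id _) (fun c => (ev C.w (σ c))⁻¹) e) = f e := by
  obtain ⟨φ, t, h⟩ := hx Q f hf
  have hf' : f = C.val φ t := funext h
  have h2 : ∀ c, t c = t C.c0 * (φ (ev C.w (σ c)))⁻¹ := by
    intro c
    have h3 := h1 c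
    rw [hf', ev_val φ t (hσ c)] at h3
    calc t c = (t c * φ (ev C.w (σ c)) * (t C.c0)⁻¹) * (t C.c0 * (φ (ev C.w (σ c)))⁻¹) := by group
      _ = _ := by rw [h3, one_mul]
  refine ⟨(MulAut.conj (t C.c0)).toMonoidHom.comp φ, fun e => ?_⟩
  rw [h e]
  simp only [Cfg.val, MonoidHom.comp_apply, MulEquiv.coe_toMonoidHom, MulAut.conj_apply,
    MonoidHom.id_apply, map_mul, map_inv]
  rw [h2 (C.cp e true), h2 (C.cp e false)]
  group

lemma kills_short {V0 : FreeGroup α} {L : ℤ} (hG : C.Geo V0 L) {Q : Type} [Group Q] (f : E → Q)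
    (h : ∀ a l, Pth C.Step a a l → l.length ≤ C.M.ncard + 1 → ev f l = 1) : C.Kills f := by
  intro a l hl
  obtain ⟨m, h1, h2, h3⟩ := Pth.short (Q := Q) hG.fin (St := C.Step) (fun a b x hx => hx.2.2.1) hl
  rw [h3 f h]
  exact h a m h1 (by omega)

lemma loop_w {V0 : FreeGroup α} {L : ℤ} (hG : C.Geo V0 L) {a : V × ℤ} {l : List (E × Bool)}
    (hl : Pth C.Step a a l) : ev C.w l = 1 := by
  have := hG.path_lab hl
  exact mul_right_cancel (this.trans (one_mul _).symm)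

/-! norms -/

lemma nm_mul (x y : FreeGroup α) : ((x * y).norm : ℤ) ≤ x.norm + y.norm := by
  exact_mod_cast FreeGroup.norm_mul_le x y

lemma seg_norm {V0 : FreeGroup α} {L : ℤ} (hG : C.Geo V0 L) (c : V) (n : ℕ)
    (hn : C.lo c + n ≤ C.hi c) :
    ((((C.pt c (C.lo c))⁻¹ * C.pt c (C.lo c + n)).norm : ℕ) : ℤ) ≤ n := by
  induction n with
  | zero => simp
  | succ n ih =>
    push_cast at hn ⊢
    have h1 := ih (by omega)
    have h2 := hG.adj c (C.lo c + n) (by omega) (by omega)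
    have h3 := nm_mul ((C.pt c (C.lo c))⁻¹ * C.pt c (C.lo c + n))
      ((C.pt c (C.lo c + n))⁻¹ * C.pt c (C.lo c + n + 1))
    have h4 : (C.pt c (C.lo c))⁻¹ * C.pt c (C.lo c + n) *
      ((C.pt c (C.lo c + n))⁻¹ * C.pt c (C.lo c + n + 1)) =
        (C.pt c (C.lo c))⁻¹ * C.pt c (C.lo c + (n + 1)) := by
      rw [← add_assoc]; group
    rw [h4] at h3
    have h5 : ((((C.pt c (C.lo c + n))⁻¹ * C.pt c (C.lo c + n + 1)).norm : ℕ) : ℤ) ≤ 1 := by
      exact_mod_cast h2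
    omega

lemma seg_norm' {V0 : FreeGroup α} {L D : ℤ} (hG : C.Geo V0 L) (hD : ∀ c, C.hi c - C.lo c ≤ D)
    (c : V) {i : ℤ} (h1 : C.lo c ≤ i) (h2 : i ≤ C.hi c) :
    ((((C.pt c (C.lo c))⁻¹ * C.pt c i).norm : ℕ) : ℤ) ≤ D := by
  obtain ⟨n, rfl⟩ := Int.le.dest h1
  have := seg_norm hG c n h2
  have := hD c
  omega

lemma edge_norm {V0 : FreeGroup α} {L D : ℤ} (hG : C.Geo V0 L) (hD : ∀ c, C.hi c - C.lo c ≤ D)
    {a b : V} {x : E × Bool} (h : GS C C.R a b x) :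
    ((((C.pt b (C.lo b))⁻¹ * lv C.w x * C.pt a (C.lo a)).norm : ℕ) : ℤ) ≤ 2 * D := by
  obtain ⟨e, s⟩ := x
  obtain ⟨he, rfl, rfl⟩ := h
  simp only at he ⊢
  have hk := hG.kle e he
  have h1 := hG.lab he s le_rfl hk
  have h2 := hG.rng e he s _ le_rfl hk
  have h3 := hG.rng e he (!s) _ le_rfl hk
  have h4 := seg_norm' hG hD _ h2.1 h2.2
  have h5 := seg_norm' hG hD _ h3.1 h3.2
  rw [← FreeGroup.norm_inv_eq] at h5
  have h6 := nm_mul ((C.pt (C.cp e s) (C.lo (C.cp e s)))⁻¹ * C.pt (C.cp e s) (C.pos e s (C.k1 e)))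
    ((C.pt (C.cp e (!s)) (C.lo (C.cp e (!s))))⁻¹ * C.pt (C.cp e (!s)) (C.pos e (!s) (C.k1 e)))⁻¹
  have h7 : (C.pt (C.cp e s) (C.lo (C.cp e s)))⁻¹ * C.pt (C.cp e s) (C.pos e s (C.k1 e)) *
    ((C.pt (C.cp e (!s)) (C.lo (C.cp e (!s))))⁻¹ * C.pt (C.cp e (!s)) (C.pos e (!s) (C.k1 e)))⁻¹ =
      (C.pt (C.cp e s) (C.lo (C.cp e s)))⁻¹ * lv C.w (e, s) *
        C.pt (C.cp e (!s)) (C.lo (C.cp e (!s))) := by
    rw [← h1]; group
  rw [h7] at h6
  omega

lemma path_norm {V0 : FreeGroup α} {L D : ℤ} (hG : C.Geo V0 L) (hD : ∀ c, C.hi c - C.lo c ≤ D)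
    {a b : V} {l : List (E × Bool)} (h : Pth (GS C C.R) a b l) :
    ((((C.pt b (C.lo b))⁻¹ * ev C.w l * C.pt a (C.lo a)).norm : ℕ) : ℤ) ≤ 2 * D * l.length := by
  induction h with
  | nil => simp
  | @cons b c x l _ s ih =>
    have h1 := edge_norm hG hD s
    have h2 := nm_mul ((C.pt c (C.lo c))⁻¹ * lv C.w x * C.pt b (C.lo b))
      ((C.pt b (C.lo b))⁻¹ * ev C.w l * C.pt a (C.lo a))
    have h3 : (C.pt c (C.lo c))⁻¹ * lv C.w x * C.pt b (C.lo b) *
      ((C.pt b (C.lo b))⁻¹ * ev C.w l * C.pt a (C.lo a)) =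
        (C.pt c (C.lo c))⁻¹ * ev C.w (x :: l) * C.pt a (C.lo a) := by
      rw [ev_cons]; group
    rw [h3] at h2
    simp only [List.length_cons]
    push_cast
    linarith

lemma conj_ev_norm {S : Type} (η : S → FreeGroup α) (h : FreeGroup α) {N : ℤ}
    (hN : ∀ s, (((h⁻¹ * η s * h).norm : ℕ) : ℤ) ≤ N) (l : List (S × Bool)) :
    (((h⁻¹ * ev η l * h).norm : ℕ) : ℤ) ≤ N * l.length := by
  induction l with
  | nil => simp
  | cons x l ih =>
    have h1 : (((h⁻¹ * lv η x * h).norm : ℕ) : ℤ) ≤ N := by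
      obtain ⟨s, b⟩ := x
      cases b
      · have : h⁻¹ * lv η (s, false) * h = (h⁻¹ * η s * h)⁻¹ := by rw [lv_false]; group
        rw [this, FreeGroup.norm_inv_eq]
        exact hN s
      · exact hN s
    have h2 := nm_mul (h⁻¹ * lv η x * h) (h⁻¹ * ev η l * h)
    have h3 : h⁻¹ * lv η x * h * (h⁻¹ * ev η l * h) = h⁻¹ * ev η (x :: l) * h := by
      rw [ev_cons]; group
    rw [h3] at h2
    simp only [List.length_cons]
    push_cast
    linarith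

end Pool.Agent.H473Z.Extr
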