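import Pool.Agent.H473Z.Extr.A

set_option autoImplicit false
set_option linter.unusedSectionVars false
set_option linter.unusedSimpArgs false
set_option linter.unusedVariables false

/-! # Extraction of the basis, part B -/

namespace Pool.Agent.H473Z.Extr

open Pool.Agent.H8Z.BTE

section alg

variable {E : Type} {F Q : Type} [Group F] [Group Q]

def dn {T : Set E} (l : List (T × Bool)) : List (E × Bool) := l.map (fun x => (x.1.1, x.2))

lemma dn_length {T : Set E} (l : List (T × Bool)) : (dn l).length = l.length := by simp [dn]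

lemma ev_dn {T : Set E} (f : E → Q) (l : List (T × Bool)) :
    ev f (dn l) = ev (fun s : T => f s) l := by
  induction l with
  | nil => rfl
  | cons x l ih =>
    have : dn (x :: l) = (x.1.1, x.2) :: dn l := rfl
    rw [this, ev_cons, ev_cons, ih]
    rfl

lemma exists_dn {T : Set E} {l : List (E × Bool)} (h : ∀ x ∈ l, x.1 ∈ T) :
    ∃ l' : List (T × Bool), dn l' = l := by
  induction l with
  | nil => exact ⟨[], rfl⟩
  | cons x l ih =>
    obtain ⟨l', hl⟩ := ih fun y hy => h y (List.mem_cons_of_mem _ hy)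
    exact ⟨(⟨x.1, h x (by simp)⟩, x.2) :: l', congrArg (List.cons x) hl⟩

/-- the subgroup generated by the values of the bands in `T` -/
def AT (η : E → F) (T : Set E) : Subgroup F := Subgroup.closure (η '' T)

def eT (η : E → F) (T : Set E) (s : T) : AT η T := ⟨η s, Subgroup.subset_closure ⟨s, s.2, rfl⟩⟩

lemma eT_gen (η : E → F) (T : Set E) : Subgroup.closure (Set.range (eT η T)) = ⊤ := by
  have h : Set.range (eT η T) = ((↑) : Subgroup.closure (η '' T) → F) ⁻¹' (η '' T) := by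
    ext x
    constructor
    · rintro ⟨s, rfl⟩
      exact ⟨s, s.2, rfl⟩
    · rintro ⟨s, hs, hx⟩
      exact ⟨⟨s, hs⟩, Subtype.ext hx⟩
  rw [h]
  exact Subgroup.closure_closure_coe_preimage

lemma coe_ev_eT (η : E → F) (T : Set E) (l : List (T × Bool)) :
    ((ev (eT η T) l : AT η T) : F) = ev η (dn l) := by
  rw [ev_dn]
  exact map_ev (AT η T).subtype (eT η T) l

lemma ev_eq_one (η : E → F) (T : Set E) (f : E → Q) (f0 : AT η T →* Q)
    (hf : ∀ s : T, f s = f0 (eT η T s)) {l : List (E × Bool)} (hl : ∀ x ∈ l, x.1 ∈ T)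
    (h : ev η l = 1) : ev f l = 1 := by
  obtain ⟨l', rfl⟩ := exists_dn hl
  have h1 : ev (eT η T) l' = 1 := Subtype.ext (by rw [coe_ev_eT, h]; rfl)
  rw [ev_dn, funext hf, ← map_ev, h1, map_one]

lemma exists_iso {X : Type} (u : X → F) (Φ : F →* FreeGroup X) (h1 : ∀ x, Φ (u x) = FreeGroup.of x)
    (h2 : ∀ g g' : F →* F, (∀ x, g (u x) = g' (u x)) → g = g') :
    ∃ ψ : F ≃* FreeGroup X, ∀ x, ψ (u x) = FreeGroup.of x := by
  refine ⟨MonoidHom.toMulEquiv Φ (FreeGroup.lift u) (h2 _ _ fun x => ?_) ?_, h1⟩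
  · simp [h1]
  · ext x
    simp [h1]

end alg

section words

variable {α : Type} [DecidableEq α]

/-- `g` is a word of length at most `n` in good letters -/
def Wd (G : α → Prop) (n : ℕ) (g : FreeGroup α) : Prop :=
  ∃ W : List (α × Bool), FreeGroup.mk W = g ∧ W.length ≤ n ∧ ∀ x ∈ W, G x.1

lemma Wd.mul {G : α → Prop} {n m : ℕ} {g h : FreeGroup α} (h1 : Wd G n g) (h2 : Wd G m h) :
    Wd G (n + m) (g * h) := by
  obtain ⟨W, rfl, a2, a3⟩ := h1
  obtain ⟨W', rfl, b2, b3⟩ := h2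
  refine ⟨W ++ W', FreeGroup.mul_mk.symm, by rw [List.length_append]; omega, fun x hx => ?_⟩
  rcases List.mem_append.1 hx with hx | hx
  · exact a3 x hx
  · exact b3 x hx

lemma Wd.inv {G : α → Prop} {n : ℕ} {g : FreeGroup α} (h1 : Wd G n g) : Wd G n g⁻¹ := by
  obtain ⟨W, rfl, a2, a3⟩ := h1
  refine ⟨FreeGroup.invRev W, FreeGroup.inv_mk.symm, by simpa using a2, fun x hx => ?_⟩
  simp only [FreeGroup.invRev, List.mem_reverse, List.mem_map] at hx
  obtain ⟨y, hy, rfl⟩ := hx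
  exact a3 y hy

lemma Wd.mono {G : α → Prop} {n m : ℕ} {g : FreeGroup α} (h1 : Wd G n g) (h : n ≤ m) :
    Wd G m g := by
  obtain ⟨W, a1, a2, a3⟩ := h1
  exact ⟨W, a1, a2.trans h, a3⟩

lemma Wd.ev {G : α → Prop} {S : Type} {n : ℕ} (f : S → FreeGroup α) {l : List (S × Bool)}
    (h : ∀ x ∈ l, Wd G n (f x.1)) : Wd G (l.length * n) (ev f l) := by
  induction l with
  | nil => exact ⟨[], rfl, by simp, by simp⟩
  | cons x l ih =>
    have h1 := ih fun y hy => h y (List.mem_cons_of_mem _ hy)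
    have h2 : Wd G n (lv f x) := by
      have := h x (by simp)
      obtain ⟨s, b⟩ := x
      cases b
      · exact this.inv
      · exact this
    rw [ev_cons]
    exact (h2.mul h1).mono (by rw [List.length_cons, Nat.succ_mul]; omega)

lemma Wd.of {G : α → Prop} {a : α} (h : G a) : Wd G 1 (FreeGroup.of a) :=
  ⟨[(a, true)], rfl, by simp, by simpa using h⟩

lemma Wd.out {G : α → Prop} {n : ℕ} {g : FreeGroup α} (h : Wd G n g) :
    g.norm ≤ n ∧ ∀ x ∈ g.toWord, G x.1 := by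
  obtain ⟨W, rfl, a2, a3⟩ := h
  refine ⟨FreeGroup.norm_mk_le.trans a2, fun x hx => a3 x ?_⟩
  rw [FreeGroup.toWord_mk] at hx
  exact (FreeGroup.Red.sublist FreeGroup.reduce.red).subset hx

end words

theorem extrS (α : Type) [Fintype α] [DecidableEq α] (hF : FamS) : ExtrS α := by
  intro B
  obtain ⟨κ, hκ⟩ := hF (2 * B + 1)
  refine ⟨B * κ, 2 * (4 * B + 1) * κ, ?_⟩
  intro E V _ _ C V0 L D hI hM hR hD
  classical
  have hG := hI.geo
  have hD0 : 0 ≤ D := by
    have := hD C.c0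
    have := hG.lh C.c0
    omega
  choose π hπ1 hπ2 hπ3 using exists_pi (C := C) hR
  choose r ρ hr hρ hrρ using exists_rho hI.gen
  obtain ⟨σ, hσd⟩ : ∃ σ : V → List (E × Bool), ∀ c, σ c = ρ c ++ π (r c) := ⟨_, fun _ => rfl⟩
  have hσ : ∀ c, Pth (GS C Set.univ) C.c0 c (σ c) := fun c => by
    rw [hσd]
    exact ((hπ1 _ (hr c)).mono fun a b x hx => ⟨trivial, hx.2⟩).append
      ((hρ c).mono fun a b x hx => ⟨trivial, hx.2⟩)
  have hσ0 : ∀ c ∈ Vx0 C, σ c = π c := fun c hc => by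
    rw [hσd, (hrρ c hc).1, (hrρ c hc).2, List.nil_append]
  have hσc0 : σ C.c0 = [] := by rw [hσ0 _ c0_mem, hπ3 _ rfl]
  obtain ⟨η, hηd⟩ : ∃ η : E → FreeGroup α,
      η = C.val (MonoidHom.id _) (fun c => (ev C.w (σ c))⁻¹) := ⟨_, rfl⟩
  have hη : ∀ {T : Set E} {a b : V} {l : List (E × Bool)}, Pth (GS C T) a b l →
      ev η l = (ev C.w (σ b))⁻¹ * ev C.w l * ev C.w (σ a) := fun h => by
    rw [hηd, ev_val _ _ h]
    simp
  have hloop : ∀ a l, Pth C.Step a a l → ev η l = 1 := fun a l hl => by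
    rw [hη (step_pth hl), loop_w hG hl]
    simp
  have hπη : ∀ c ∈ Vx0 C, ev η (π c) = 1 := fun c hc => by
    rw [hη (hπ1 c hc), hσ0 c hc, hσc0]
    simp
  have hρη : ∀ c, ev η (ρ c) = 1 := fun c => by
    rw [hη (hρ c), hσ0 _ (hr c), hσd c, ev_append]
    group
  have hgen : Subgroup.closure (Set.range η) = ⊤ := by
    rw [eq_top_iff]
    intro g _
    refine (hI.gen (FreeGroup α) (Subgroup.closure (Set.range η)) (MonoidHom.id _)
      (fun c => (ev C.w (σ c))⁻¹) (fun e => Subgroup.subset_closure ⟨e, by rw [hηd]⟩) ?_).1 g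
    simp only [hσc0, ev_nil, inv_one]
    exact Subgroup.one_mem _
  have hkey : ∀ (Q : Type) [Group Q] (f : E → Q),
      (∀ a l, Pth C.Step a a l → l.length ≤ B + 1 → (∀ x ∈ l, x.1 ∈ S0 C) → ev f l = 1) →
      (∀ c ∈ Vx0 C, ev f (π c) = 1) →
      (∀ l, (∀ x ∈ l, x.1 ∈ (S0 C)ᶜ) → ev η l = 1 → ev f l = 1) →
      ∃ Φ : FreeGroup α →* Q, ∀ e, Φ (η e) = f e := by
    intro Q _ f h1 h2 h3
    rw [hηd]
    refine key hI.ex σ hσ f (kills_short hG f fun a l hl hn => ?_) fun c => ?_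
    · by_cases ha : a.1 ∈ Vx0 C
      · exact h1 a l hl (by omega) (GS_mem (pth_in (step_pth hl) ha).1)
      · exact h3 l (pth_out (step_pth hl) ha).1 (hloop a l hl)
    · rw [hσd, ev_append, h2 _ (hr c), h3 _ (GS_mem (hρ c)) (hρη c), one_mul]
  -- the short basis of the first factor
  obtain ⟨ι0, b0, hb0⟩ := hκ (S0 C)
    {l | (∃ a, Pth C.Step a a (dn l) ∧ l.length ≤ B + 1) ∨ ∃ c ∈ Vx0 C, dn l = π c}
    (AT η (S0 C)) (eT η (S0 C))
    (by
      have h1 : (S0 C).ncard ≤ C.R.ncard := Set.ncard_le_ncard (fun e he => he.1) (Set.toFinite _)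
      rw [Nat.card_coe_set_eq]
      omega)
    (by
      rintro l (⟨a, h1, h2⟩ | ⟨c, h1, h2⟩)
      · omega
      · have := hπ2 c
        rw [← h2, dn_length] at this
        omega)
    (by
      rintro l hl
      apply Subtype.ext
      rw [coe_ev_eT]
      rcases hl with (⟨a, h1, h2⟩ | ⟨c, h1, h2⟩)
      · exact hloop a _ h1
      · rw [h2]; exact hπη c h1)
    (eT_gen _ _)
    (by
      intro Q _ f hf
      let f' : E → Q := fun e => if h : e ∈ S0 C then f ⟨e, h⟩ else 1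
      have hf' : (fun s : S0 C => f' s) = f := funext fun s => dif_pos s.2
      refine (hkey Q f' (fun a l h1 h2 h3 => ?_) (fun c hc => ?_) (fun l h1 _ => ?_)).elim
        fun Φ hΦ => ⟨Φ.comp (AT η (S0 C)).subtype, fun s => (hΦ s).trans (congrFun hf' s)⟩
      · obtain ⟨l', rfl⟩ := exists_dn h3
        rw [ev_dn, hf']
        exact hf l' (Or.inl ⟨a, h1, by rwa [dn_length] at h2⟩)
      · obtain ⟨l', hl'⟩ := exists_dn (GS_mem (hπ1 c hc))
        rw [← hl', ev_dn, hf']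
        exact hf l' (Or.inr ⟨c, hc, hl'⟩)
      · rw [ev_congr (g := fun _ => (1 : Q)) (fun x hx => dif_neg (h1 x hx))]
        have := map_ev (1 : Q →* Q) (fun _ : E => (1 : Q)) l
        simpa using this.symm)
  obtain ⟨ι1, ⟨b1⟩⟩ := IsFreeGroup.nonempty_basis (G := AT η (S0 C)ᶜ)
  let u : ι0 ⊕ ι1 → FreeGroup α := Sum.elim (fun i => (b0 i : FreeGroup α)) fun i => (b1 i : FreeGroup α)
  obtain ⟨ψ, hψ⟩ : ∃ ψ : FreeGroup α ≃* FreeGroup (ι0 ⊕ ι1), ∀ x, ψ (u x) = FreeGroup.of x := by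
    let f0 : AT η (S0 C) →* FreeGroup (ι0 ⊕ ι1) := b0.lift fun i => FreeGroup.of (Sum.inl i)
    let f1 : AT η (S0 C)ᶜ →* FreeGroup (ι0 ⊕ ι1) := b1.lift fun i => FreeGroup.of (Sum.inr i)
    let f : E → FreeGroup (ι0 ⊕ ι1) := fun e =>
      if h : e ∈ S0 C then f0 (eT η _ ⟨e, h⟩) else f1 (eT η _ ⟨e, h⟩)
    have e0 : ∀ s : S0 C, f s = f0 (eT η _ s) := fun s => dif_pos s.2
    have e1 : ∀ s : ((S0 C)ᶜ : Set E), f s = f1 (eT η _ s) := fun s => dif_neg s.2
    obtain ⟨Φ, hΦ⟩ := hkey _ f (fun a l h1 _ h3 => ev_eq_one η _ f f0 e0 h3 (hloop a l h1))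
      (fun c hc => ev_eq_one η _ f f0 e0 (GS_mem (hπ1 c hc)) (hπη c hc))
      (fun l h1 h2 => ev_eq_one η _ f f1 e1 h1 h2)
    have g0 : Φ.comp (AT η (S0 C)).subtype = f0 :=
      MonoidHom.eq_of_eqOn_dense (eT_gen η _) (by
        rintro _ ⟨s, rfl⟩
        exact (hΦ s).trans (e0 s))
    have g1 : Φ.comp (AT η (S0 C)ᶜ).subtype = f1 :=
      MonoidHom.eq_of_eqOn_dense (eT_gen η _) (by
        rintro _ ⟨s, rfl⟩
        exact (hΦ s).trans (e1 s))
    refine exists_iso u Φ ?_ ?_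
    · rintro (i | i)
      · refine (DFunLike.congr_fun g0 (b0 i)).trans ?_
        simp [f0]
      · refine (DFunLike.congr_fun g1 (b1 i)).trans ?_
        simp [f1]
    · intro g g' h
      have k0 : g.comp (AT η (S0 C)).subtype = g'.comp (AT η (S0 C)).subtype :=
        b0.ext_hom _ _ fun i => h (Sum.inl i)
      have k1 : g.comp (AT η (S0 C)ᶜ).subtype = g'.comp (AT η (S0 C)ᶜ).subtype :=
        b1.ext_hom _ _ fun i => h (Sum.inr i)
      refine MonoidHom.eq_of_eqOn_dense hgen ?_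
      rintro _ ⟨e, rfl⟩
      by_cases he : e ∈ S0 C
      · exact DFunLike.congr_fun k0 (eT η _ ⟨e, he⟩)
      · exact DFunLike.congr_fun k1 (eT η _ ⟨e, he⟩)
  let ε : ι0 ⊕ ι1 ≃ α := (Equiv.ofFreeGroupEquiv ψ).symm
  let θ : MulAut (FreeGroup α) := ψ.trans (FreeGroup.freeGroupCongr ε)
  have hθ : ∀ x, θ (u x) = FreeGroup.of (ε x) := fun x => by
    show FreeGroup.freeGroupCongr ε (ψ (u x)) = _
    rw [hψ]
    rfl
  let G : α → Prop := fun a => ∃ i, a = ε (Sum.inl i) ∧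
    ∃ l : List (S0 C × Bool), ev (eT η (S0 C)) l = b0 i ∧ l.length ≤ κ
  have hW : ∀ e ∈ S0 C, Wd G κ (θ (η e)) := by
    intro e he
    obtain ⟨m, h1, h2, h3⟩ := hb0 ⟨e, he⟩
    have h4 : θ (η e) = ev (fun i => FreeGroup.of (ε (Sum.inl i))) m := by
      have h5 := map_ev (θ.toMonoidHom.comp (AT η (S0 C)).subtype) b0 m
      rw [h1] at h5
      refine h5.trans ?_
      congr 1
      funext i
      exact hθ (Sum.inl i)
    rw [h4]
    have := Wd.ev (G := G) (n := 1) (fun i => FreeGroup.of (ε (Sum.inl i))) (l := m)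
      fun x hx => Wd.of ⟨x.1, rfl, h3 x hx⟩
    exact this.mono (by omega)
  obtain ⟨γ0, hγ0⟩ := hG.gam
  obtain ⟨γ, hγ, hγl, -⟩ := Pth.short (Q := FreeGroup α) hG.fin (St := C.Step)
    (fun a b x hx => hx.2.2.1) hγ0
  have hV : V0 = ev η γ := by
    have h1 := hG.path_lab hγ
    simp only at h1
    rw [hG.pV] at h1
    rw [hη (step_pth hγ), mul_right_cancel h1]
    simp [hσc0]
  have hWV : Wd G (B * κ) (θ V0) := by
    have h1 : θ V0 = ev (fun e => θ (η e)) γ := by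
      rw [hV]
      exact map_ev θ.toMonoidHom η γ
    rw [h1]
    have h2 := GS_mem (pth_in (step_pth hγ) c0_mem).1
    exact (Wd.ev _ fun x hx => hW _ (h2 x hx)).mono (Nat.mul_le_mul_right _ (hγl.trans hM))
  refine ⟨θ, C.pt C.c0 (C.lo C.c0), hWV.out.1, fun x hx => ?_⟩
  obtain ⟨i, h1, l, h2, h3⟩ := hWV.out.2 x hx
  have h4 : θ⁻¹ (FreeGroup.of x.1) = ev (fun s : S0 C => η s) l := by
    rw [h1, ← hθ, MulAut.inv_apply_self, ← ev_dn, ← coe_ev_eT, h2]
    rfl
  rw [h4]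
  have hS : ∀ c ∈ Vx0 C, ((((C.pt c (C.lo c))⁻¹ * ev C.w (σ c) *
      C.pt C.c0 (C.lo C.c0)).norm : ℕ) : ℤ) ≤ 2 * D * (2 * B) := fun c hc => by
    have h5 := path_norm hG hD ((hπ1 c hc).mono fun a b x hx => ⟨hx.1.1, hx.2⟩)
    rw [hσ0 c hc]
    have h6 : ((π c).length : ℤ) ≤ 2 * B := by exact_mod_cast hπ2 c
    nlinarith
  refine (conj_ev_norm (fun s : S0 C => η s) (C.pt C.c0 (C.lo C.c0)) (N := 2 * (4 * B + 1) * D)
    (fun s => ?_) l).trans ?_
  swap
  · have h6 : (l.length : ℤ) ≤ κ := by exact_mod_cast h3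
    have h7 : (0 : ℤ) ≤ 2 * (4 * B + 1) * D := by positivity
    push_cast
    nlinarith
  · obtain ⟨e, he⟩ := s
    have k1 := hS _ (S0_end he true)
    have k2 := hS _ (S0_end he false)
    have k3 := edge_norm hG hD (x := (e, true)) (a := C.cp e false) (b := C.cp e true)
      ⟨he.1, rfl, rfl⟩
    rw [← FreeGroup.norm_inv_eq] at k1
    have k4 := nm_mul ((C.pt (C.cp e true) (C.lo (C.cp e true)))⁻¹ * ev C.w (σ (C.cp e true)) *
      C.pt C.c0 (C.lo C.c0))⁻¹ ((C.pt (C.cp e true) (C.lo (C.cp e true)))⁻¹ * lv C.w (e, true) *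
      C.pt (C.cp e false) (C.lo (C.cp e false)))
    have k5 := nm_mul (((C.pt (C.cp e true) (C.lo (C.cp e true)))⁻¹ * ev C.w (σ (C.cp e true)) *
      C.pt C.c0 (C.lo C.c0))⁻¹ * ((C.pt (C.cp e true) (C.lo (C.cp e true)))⁻¹ * lv C.w (e, true) *
      C.pt (C.cp e false) (C.lo (C.cp e false))))
      ((C.pt (C.cp e false) (C.lo (C.cp e false)))⁻¹ * ev C.w (σ (C.cp e false)) *
      C.pt C.c0 (C.lo C.c0))
    have k6 : (((C.pt (C.cp e true) (C.lo (C.cp e true)))⁻¹ * ev C.w (σ (C.cp e true)) *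
      C.pt C.c0 (C.lo C.c0))⁻¹ * ((C.pt (C.cp e true) (C.lo (C.cp e true)))⁻¹ * lv C.w (e, true) *
      C.pt (C.cp e false) (C.lo (C.cp e false)))) *
      ((C.pt (C.cp e false) (C.lo (C.cp e false)))⁻¹ * ev C.w (σ (C.cp e false)) *
      C.pt C.c0 (C.lo C.c0)) = (C.pt C.c0 (C.lo C.c0))⁻¹ * η e * C.pt C.c0 (C.lo C.c0) := by
      rw [hηd]
      simp only [Cfg.val, lv_true, MonoidHom.id_apply]
      group
    rw [k6] at k5
    simp only
    linarith

end Pool.Agent.H473Z.Extr
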